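import Mathlib

/-!
# Symmetric facet condition versus a single antipodal pair (MP_123198_al, Q1): disproof

The symmetric group `S_3` acts on `ℤ^2 ⊗ ℤ^3 = ℤ^6`.  There are four antipodal pairs which satisfy
the facet condition, but no single antipodal pair has a full-dimensional orbit polytope.
-/

namespace Pool.Agent.Results.MP_123198_al.FourPairs

open Matrix

/-- the real vector with the given integral coordinates. -/
def toR {d : ℕ} (v : Fin d → ℤ) : Fin d → ℝ := fun i => (v i : ℝ)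

/-- the convex hull `P` of the `F`-orbit of `A`. -/
def hull {d : ℕ} (F : Subgroup (GL (Fin d) ℤ)) (A : Set (Fin d → ℤ)) : Set (Fin d → ℝ) :=
  convexHull ℝ {x | ∃ f ∈ F, ∃ a ∈ A, x = toR ((f : Matrix (Fin d) (Fin d) ℤ) *ᵥ a)}

/-- `G` is a facet of `P ⊆ ℝ^d`: a nonempty set of the form `{x ∈ P | ℓ x = c}` with `ℓ ≤ c`
on `P`, of dimension `d - 1`. -/
def IsFacet {d : ℕ} (P G : Set (Fin d → ℝ)) : Prop :=
  G.Nonempty ∧ (∃ (l : Module.Dual ℝ (Fin d → ℝ)) (c : ℝ), (∀ x ∈ P, l x ≤ c) ∧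
    G = {x ∈ P | l x = c}) ∧ Module.finrank ℝ (vectorSpan ℝ G) + 1 = d

/-- `A` is admissible for `F`: `P` is full-dimensional and every facet of `P` contains at most
one point of `A`. -/
def Admissible {d : ℕ} (F : Subgroup (GL (Fin d) ℤ)) (A : Set (Fin d → ℤ)) : Prop :=
  (interior (hull F A)).Nonempty ∧
    ∀ G, IsFacet (hull F A) G → ∀ a ∈ A, ∀ b ∈ A, toR a ∈ G → toR b ∈ G → a = b

/-- condition (S). -/
def CondS {d : ℕ} (F : Subgroup (GL (Fin d) ℤ)) : Prop :=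
  ∃ A : Set (Fin d → ℤ), A.Finite ∧ (∀ a ∈ A, -a ∈ A) ∧ Admissible F A

/-- condition (B). -/
def CondB {d : ℕ} (F : Subgroup (GL (Fin d) ℤ)) : Prop :=
  ∃ v : Fin d → ℤ, Admissible F {v, -v}

/-! ### the group -/

/-- the Kronecker product of a `2 × 2` matrix with the identity of size 3. -/
def kron (a b c d : ℤ) : Matrix (Fin 6) (Fin 6) ℤ :=
  !![a, 0, 0, b, 0, 0;
     0, a, 0, 0, b, 0;
     0, 0, a, 0, 0, b;
     c, 0, 0, d, 0, 0;
     0, c, 0, 0, d, 0;
     0, 0, c, 0, 0, d]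

/-- the six matrices of the group. -/
def mats : Fin 6 → Matrix (Fin 6) (Fin 6) ℤ :=
  ![kron 1 0 0 1, kron 0 (-1) 1 (-1), kron (-1) 1 (-1) 0,
    kron 1 (-1) 0 (-1), kron 0 1 1 0, kron (-1) 0 (-1) 1]

lemma mats_mul : ∀ i j : Fin 6, ∃ k : Fin 6, mats i * mats j = mats k := by
  decide +kernel

lemma mats_inv : ∀ i : Fin 6, ∃ j : Fin 6, mats i * mats j = 1 ∧ mats j * mats i = 1 := by
  decide +kernel

lemma mats_one : mats 0 = 1 := by decide +kernel

/-- the group. -/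
def F : Subgroup (GL (Fin 6) ℤ) where
  carrier := {g | ∃ i, (g : Matrix (Fin 6) (Fin 6) ℤ) = mats i}
  mul_mem' := by
    rintro g h ⟨i, hi⟩ ⟨j, hj⟩
    obtain ⟨k, hk⟩ := mats_mul i j
    exact ⟨k, by rw [Units.val_mul, hi, hj, hk]⟩
  one_mem' := ⟨0, by rw [Units.val_one, mats_one]⟩
  inv_mem' := by
    rintro g ⟨i, hi⟩
    obtain ⟨j, hj, _⟩ := mats_inv i
    refine ⟨j, ?_⟩
    have h1 : (g : Matrix (Fin 6) (Fin 6) ℤ) * mats j = 1 := by rw [hi, hj]
    calc ((g⁻¹ : GL (Fin 6) ℤ) : Matrix (Fin 6) (Fin 6) ℤ)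
        = ((g⁻¹ : GL (Fin 6) ℤ) : Matrix (Fin 6) (Fin 6) ℤ) *
          ((g : Matrix (Fin 6) (Fin 6) ℤ) * mats j) := by rw [h1, mul_one]
      _ = mats j := by rw [← mul_assoc, Units.inv_mul, one_mul]

lemma exists_mem_F (i : Fin 6) : ∃ f ∈ F, (f : Matrix (Fin 6) (Fin 6) ℤ) = mats i := by
  obtain ⟨j, hj, hj'⟩ := mats_inv i
  exact ⟨⟨mats i, mats j, hj, hj'⟩, ⟨i, rfl⟩, rfl⟩

lemma finite_F : Finite F := by
  have : Function.Injective (fun g : F => ((g : GL (Fin 6) ℤ) : Matrix (Fin 6) (Fin 6) ℤ)) := by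
    intro g h hgh
    exact Subtype.ext (Units.ext hgh)
  have hfin : (Set.range mats).Finite := Set.finite_range mats
  refine Finite.of_injective (β := Set.range mats)
    (fun g : F => ⟨((g : GL (Fin 6) ℤ) : Matrix (Fin 6) (Fin 6) ℤ), ?_⟩) ?_
  · obtain ⟨i, hi⟩ := g.2
    exact ⟨i, hi.symm⟩
  · intro g h hgh
    exact this (congrArg Subtype.val hgh)

/-! ### the four vectors and the certificates -/

/-- the four vectors. -/
def vs : Fin 4 → Fin 6 → ℤ :=
  ![![2, 0, 0, -6, 0, 0], ![-4, -2, 4, -3, -4, 2], ![0, 5, 0, 0, 0, 5], ![-4, 2, -4, -3, 4, -2]]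

/-- the orbit points. -/
def pt (g : Fin 6) (l : Fin 4) : Fin 6 → ℤ := mats g *ᵥ vs l

/-- a certificate that `vs i` and `s * vs j` do not lie on a common facet: an affine combination
of the two is a combination of orbit points with small coefficients. -/
def Cert (i j : Fin 4) (s : ℤ) : Prop :=
  ∃ (N T c₁ c₂ c₃ : ℤ) (g₁ g₂ g₃ : Fin 6) (l₁ l₂ l₃ : Fin 4),
    (∀ k, T * vs i k + (N - T) * (s * vs j k) =
      c₁ * pt g₁ l₁ k + c₂ * pt g₂ l₂ k + c₃ * pt g₃ l₃ k) ∧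
    |c₁| + |c₂| + |c₃| < N

lemma cert : ∀ i j : Fin 4, i < j → ∀ s : ℤ, (s = 1 ∨ s = -1) → Cert i j s := by
  intro i j hij s hs
  fin_cases i <;> fin_cases j <;> first
    | (exfalso; revert hij; decide)
    | skip
  · rcases hs with rfl | rfl
    · exact ⟨135, 65, 75, -28, 28, 5, 1, 2, 0, 2, 2, by decide +kernel, by decide⟩
    · exact ⟨145, 65, -75, 32, -32, 4, 1, 2, 0, 2, 2, by decide +kernel, by decide⟩
  · rcases hs with rfl | rfl
    · exact ⟨149, 65, 5, 70, -70, 5, 1, 2, 0, 1, 1, by decide +kernel, by decide⟩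
    · exact ⟨149, 65, 5, 70, -70, 5, 1, 2, 0, 3, 3, by decide +kernel, by decide⟩
  · rcases hs with rfl | rfl
    · exact ⟨135, 65, 75, 28, -28, 5, 1, 2, 0, 2, 2, by decide +kernel, by decide⟩
    · exact ⟨145, 65, -75, -32, 32, 4, 1, 2, 0, 2, 2, by decide +kernel, by decide⟩
  · rcases hs with rfl | rfl
    · exact ⟨14, 10, -5, -8, 0, 3, 1, 0, 0, 2, 0, by decide +kernel, by decide⟩
    · exact ⟨14, 10, -5, 8, 0, 3, 2, 0, 0, 2, 0, by decide +kernel, by decide⟩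
  · rcases hs with rfl | rfl
    · exact ⟨2, 1, -1, 0, 0, 3, 0, 0, 0, 0, 0, by decide +kernel, by decide⟩
    · exact ⟨10, 5, -4, 4, 0, 1, 2, 0, 2, 2, 0, by decide +kernel, by decide⟩
  · rcases hs with rfl | rfl
    · exact ⟨14, 4, -5, -8, 0, 3, 2, 0, 0, 2, 0, by decide +kernel, by decide⟩
    · exact ⟨14, 4, 5, -8, 0, 3, 1, 0, 0, 2, 0, by decide +kernel, by decide⟩

/-- the symmetric set. -/
def A : Set (Fin 6 → ℤ) := {x | ∃ i, x = vs i ∨ x = -vs i}

lemma finite_A : A.Finite := by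
  have : A ⊆ Set.range vs ∪ Set.range (fun i => -vs i) := by
    rintro x ⟨i, rfl | rfl⟩
    · exact Or.inl ⟨i, rfl⟩
    · exact Or.inr ⟨i, rfl⟩
  exact ((Set.finite_range _).union (Set.finite_range _)).subset this

lemma neg_mem_A : ∀ a ∈ A, -a ∈ A := by
  rintro a ⟨i, rfl | rfl⟩
  · exact ⟨i, Or.inr rfl⟩
  · exact ⟨i, Or.inl (neg_neg _)⟩

/-- the orbit set. -/
def S {d : ℕ} (F : Subgroup (GL (Fin d) ℤ)) (A : Set (Fin d → ℤ)) : Set (Fin d → ℝ) :=
  {x | ∃ f ∈ F, ∃ a ∈ A, x = toR ((f : Matrix (Fin d) (Fin d) ℤ) *ᵥ a)}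

lemma toR_neg {d : ℕ} (v : Fin d → ℤ) : toR (-v) = -toR v := by
  ext i
  simp [toR]

lemma pt_mem (g : Fin 6) (l : Fin 4) : toR (pt g l) ∈ S F A := by
  obtain ⟨f, hf, hfm⟩ := exists_mem_F g
  exact ⟨f, hf, vs l, ⟨l, Or.inl rfl⟩, by rw [hfm]; rfl⟩

lemma neg_pt_mem (g : Fin 6) (l : Fin 4) : -toR (pt g l) ∈ S F A := by
  obtain ⟨f, hf, hfm⟩ := exists_mem_F g
  refine ⟨f, hf, -vs l, ⟨l, Or.inr rfl⟩, ?_⟩
  rw [hfm, Matrix.mulVec_neg, toR_neg]
  rfl

lemma toR_pt (u : Fin 6 → ℤ) (g : Fin 6) (l : Fin 4) (h : pt g l = u) :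
    toR (pt g l) = toR u := by rw [h]

lemma pt_vals : pt 0 0 = ![2, 0, 0, -6, 0, 0] ∧ pt 1 0 = ![6, 0, 0, 8, 0, 0] ∧
    pt 0 2 = ![0, 5, 0, 0, 0, 5] ∧ pt 1 2 = ![0, 0, -5, 0, 5, -5] ∧
    pt 3 2 = ![0, 5, -5, 0, 0, -5] ∧ pt 4 2 = ![0, 0, 5, 0, 5, 0] := by
  refine ⟨?_, ?_, ?_, ?_, ?_, ?_⟩ <;> decide +kernel

lemma span_S : affineSpan ℝ (S F A) = ⊤ := by
  have hne : (S F A).Nonempty := ⟨_, pt_mem 0 0⟩
  rw [AffineSubspace.affineSpan_eq_top_iff_vectorSpan_eq_top_of_nonempty ℝ _ _ hne]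
  have hp : ∀ g l, toR (pt g l) ∈ vectorSpan ℝ (S F A) := by
    intro g l
    have h1 := vsub_mem_vectorSpan ℝ (pt_mem g l) (neg_pt_mem g l)
    rw [vsub_eq_sub, sub_neg_eq_add, ← two_smul ℝ] at h1
    have h2 := (vectorSpan ℝ (S F A)).smul_mem (1 / 2 : ℝ) h1
    rw [smul_smul] at h2
    norm_num at h2
    exact h2
  rw [Submodule.eq_top_iff']
  intro x
  obtain ⟨e0, e1, e2, e3, e4, e5⟩ := pt_vals
  have hx : x = ((8 * x 0 - 6 * x 3) / 52) • toR (pt 0 0) +
      ((6 * x 0 + 2 * x 3) / 52) • toR (pt 1 0) +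
      ((x 1 / 5 - (x 4 / 5 - x 2 / 5 - 2 * ((x 5 - x 1 + 2 * x 4 - 2 * x 2) / 15)))) •
        toR (pt 0 2) +
      ((x 5 - x 1 + 2 * x 4 - 2 * x 2) / 15) • toR (pt 1 2) +
      (x 4 / 5 - x 2 / 5 - 2 * ((x 5 - x 1 + 2 * x 4 - 2 * x 2) / 15)) • toR (pt 3 2) +
      (x 4 / 5 - (x 5 - x 1 + 2 * x 4 - 2 * x 2) / 15) • toR (pt 4 2) := by
    rw [e0, e1, e2, e3, e4, e5]
    ext i
    fin_cases i <;> simp [toR] <;> ring
  rw [hx]
  refine Submodule.add_mem _ (Submodule.add_mem _ (Submodule.add_mem _ (Submodule.add_mem _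
    (Submodule.add_mem _ ?_ ?_) ?_) ?_) ?_) ?_ <;>
  exact Submodule.smul_mem _ _ (hp _ _)

/-- the polytope of the four pairs is full-dimensional. -/
lemma full : (interior (hull F A)).Nonempty :=
  interior_convexHull_nonempty_iff_affineSpan_eq_top.mpr span_S

/-- the linear functional at an integral vector. -/
lemma L_lin (l : Module.Dual ℝ (Fin 6 → ℝ)) (x y z u v : Fin 6 → ℤ) (a b c₁ c₂ c₃ : ℤ)
    (h : ∀ k, a * x k + b * y k = c₁ * z k + c₂ * u k + c₃ * v k) :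
    (a : ℝ) * l (toR x) + (b : ℝ) * l (toR y) =
      (c₁ : ℝ) * l (toR z) + (c₂ : ℝ) * l (toR u) + (c₃ : ℝ) * l (toR v) := by
  have h1 : (a : ℝ) • toR x + (b : ℝ) • toR y =
      (c₁ : ℝ) • toR z + (c₂ : ℝ) • toR u + (c₃ : ℝ) • toR v := by
    ext k
    simp only [toR, Pi.add_apply, Pi.smul_apply, smul_eq_mul]
    exact_mod_cast h k
  have h2 := congrArg l h1
  simpa only [map_add, map_smul, smul_eq_mul] using h2

/-- no proper exposed face contains two points of `A`. -/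
lemma face_inj (l : Module.Dual ℝ (Fin 6 → ℝ)) (c : ℝ) (hle : ∀ x ∈ hull F A, l x ≤ c)
    (hc : 0 < c) : ∀ a ∈ A, ∀ b ∈ A, l (toR a) = c → l (toR b) = c → a = b := by
  have hpt : ∀ g i, |l (toR (pt g i))| ≤ c := by
    intro g i
    rw [abs_le]
    constructor
    · have := hle _ (subset_convexHull ℝ _ (neg_pt_mem g i))
      rw [map_neg] at this
      linarith
    · exact hle _ (subset_convexHull ℝ _ (pt_mem g i))
  -- the key step
  have key : ∀ i j : Fin 4, i < j → ∀ e e' : ℝ, (e = 1 ∨ e = -1) → (e' = 1 ∨ e' = -1) →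
      l (toR (vs i)) = e * c → l (toR (vs j)) = e' * c → False := by
    intro i j hij e e' he he' h1 h2
    have main : ∀ s : ℤ, (s = 1 ∨ s = -1) → (s : ℝ) = e * e' → False := by
      intro s hs hse
      obtain ⟨N, T, c₁, c₂, c₃, g₁, g₂, g₃, l₁, l₂, l₃, h3, h4⟩ := cert i j hij s hs
      have h5 := L_lin l (vs i) (vs j) (pt g₁ l₁) (pt g₂ l₂) (pt g₃ l₃) T ((N - T) * s) c₁ c₂ c₃
        (fun k => by rw [← h3 k]; ring)
      push_cast at h5
      rw [h1, h2, hse] at h5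
      have he2 : e' * e' = 1 := by rcases he' with rfl | rfl <;> norm_num
      have h6 : (T : ℝ) * (e * c) + ((N : ℝ) - T) * (e * e') * (e' * c) = e * (N * c) := by
        linear_combination ((N : ℝ) - T) * e * c * he2
      rw [h6] at h5
      have h7 : |e * ((N : ℝ) * c)| = |(N : ℝ)| * c := by
        rw [abs_mul, abs_mul, abs_of_pos hc]
        rcases he with rfl | rfl <;> norm_num
      have h8 : |e * ((N : ℝ) * c)| ≤ (|(c₁ : ℝ)| + |(c₂ : ℝ)| + |(c₃ : ℝ)|) * c := by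
        rw [h5]
        calc |(c₁ : ℝ) * l (toR (pt g₁ l₁)) + (c₂ : ℝ) * l (toR (pt g₂ l₂)) +
            (c₃ : ℝ) * l (toR (pt g₃ l₃))|
            ≤ |(c₁ : ℝ) * l (toR (pt g₁ l₁))| + |(c₂ : ℝ) * l (toR (pt g₂ l₂))| +
              |(c₃ : ℝ) * l (toR (pt g₃ l₃))| := abs_add_three _ _ _
          _ ≤ |(c₁ : ℝ)| * c + |(c₂ : ℝ)| * c + |(c₃ : ℝ)| * c := by
            rw [abs_mul, abs_mul, abs_mul]
            exact add_le_add (add_le_add
              (mul_le_mul_of_nonneg_left (hpt _ _) (abs_nonneg _))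
              (mul_le_mul_of_nonneg_left (hpt _ _) (abs_nonneg _)))
              (mul_le_mul_of_nonneg_left (hpt _ _) (abs_nonneg _))
          _ = (|(c₁ : ℝ)| + |(c₂ : ℝ)| + |(c₃ : ℝ)|) * c := by ring
      have h9 : (|(c₁ : ℝ)| + |(c₂ : ℝ)| + |(c₃ : ℝ)|) < (N : ℝ) := by exact_mod_cast h4
      have h10 : (N : ℝ) ≤ |(N : ℝ)| := le_abs_self _
      rw [h7] at h8
      have h11 : |(N : ℝ)| ≤ |(c₁ : ℝ)| + |(c₂ : ℝ)| + |(c₃ : ℝ)| := le_of_mul_le_mul_right h8 hc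
      linarith
    rcases he with rfl | rfl <;> rcases he' with rfl | rfl
    · exact main 1 (Or.inl rfl) (by norm_num)
    · exact main (-1) (Or.inr rfl) (by norm_num)
    · exact main (-1) (Or.inr rfl) (by norm_num)
    · exact main 1 (Or.inl rfl) (by norm_num)
  -- points of `A`
  have hA : ∀ a ∈ A, l (toR a) = c → ∃ (i : Fin 4) (e : ℝ), (e = 1 ∨ e = -1) ∧
      l (toR (vs i)) = e * c ∧ ((e = 1 ∧ a = vs i) ∨ (e = -1 ∧ a = -vs i)) := by
    rintro a ⟨i, rfl | rfl⟩ h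
    · exact ⟨i, 1, Or.inl rfl, by rw [h, one_mul], Or.inl ⟨rfl, rfl⟩⟩
    · refine ⟨i, -1, Or.inr rfl, ?_, Or.inr ⟨rfl, rfl⟩⟩
      rw [toR_neg, map_neg] at h
      linarith
  intro a ha b hb h1 h2
  obtain ⟨i, e, he, hi, hai⟩ := hA a ha h1
  obtain ⟨j, e', he', hj, hbj⟩ := hA b hb h2
  rcases lt_trichotomy i j with hij | hij | hij
  · exact (key i j hij e e' he he' hi hj).elim
  · subst hij
    have hee : e = e' := by
      have h3 : e * c = e' * c := hi.symm.trans hj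
      exact mul_right_cancel₀ hc.ne' h3
    subst hee
    rcases hai with ⟨h3, h4⟩ | ⟨h3, h4⟩ <;> rcases hbj with ⟨h5, h6⟩ | ⟨h5, h6⟩
    · rw [h4, h6]
    · rw [h3] at h5
      norm_num at h5
    · rw [h3] at h5
      norm_num at h5
    · rw [h4, h6]
  · exact (key j i hij e' e he' he hj hi).elim

/-- condition (S) holds. -/
lemma condS : CondS F := by
  refine ⟨A, finite_A, neg_mem_A, full, ?_⟩
  rintro G ⟨hne, ⟨l, c, hle, rfl⟩, hdim⟩ a ha b hb haG hbG
  -- `l ≠ 0`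
  have hl : l ≠ 0 := by
    rintro rfl
    obtain ⟨x, hx, hxc⟩ := hne
    have hG : {x ∈ hull F A | (0 : Module.Dual ℝ (Fin 6 → ℝ)) x = c} = hull F A := by
      ext y
      constructor
      · exact fun h => h.1
      · intro h
        exact ⟨h, by rw [← hxc]; rfl⟩
    rw [hG] at hdim
    have h1 : affineSpan ℝ (hull F A) = ⊤ := by
      rw [hull, affineSpan_convexHull]
      exact span_S
    have h2 : vectorSpan ℝ (hull F A) = ⊤ := by
      rw [← direction_affineSpan, h1, AffineSubspace.direction_top]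
    rw [h2, finrank_top] at hdim
    simp at hdim
  -- `c > 0`
  have hc : 0 < c := by
    have hpt : ∀ x ∈ S F A, -x ∈ S F A := by
      rintro x ⟨f, hf, a, ha, rfl⟩
      exact ⟨f, hf, -a, neg_mem_A a ha, by rw [Matrix.mulVec_neg, toR_neg]⟩
    by_contra hc
    rw [not_lt] at hc
    apply hl
    have hz : ∀ x ∈ S F A, l x = 0 := by
      intro x hx
      have h1 := hle x (subset_convexHull ℝ _ hx)
      have h2 := hle (-x) (subset_convexHull ℝ _ (hpt x hx))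
      rw [map_neg] at h2
      linarith
    have h3 : S F A ⊆ ((LinearMap.ker l).toAffineSubspace : Set (Fin 6 → ℝ)) := by
      intro x hx
      exact hz x hx
    have h4 := affineSpan_le.mpr h3
    rw [span_S, top_le_iff] at h4
    ext x
    have h5 : (Pi.single x 1 : Fin 6 → ℝ) ∈ (LinearMap.ker l).toAffineSubspace := by
      rw [h4]
      exact AffineSubspace.mem_top ℝ _ _
    have h6 : l (Pi.single x 1) = 0 := h5
    simpa using h6
  exact face_inj l c hle hc a ha b hb haG.2 hbG.2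

/-- condition (B) fails. -/
lemma not_condB : ¬ CondB F := by
  rintro ⟨v, hfull, _⟩
  -- a vector orthogonal to both rows
  obtain ⟨r, hr0, hr1, hr2⟩ : ∃ r : Fin 3 → ℝ, r ≠ 0 ∧
      r 0 * v 0 + r 1 * v 1 + r 2 * v 2 = 0 ∧ r 0 * v 3 + r 1 * v 4 + r 2 * v 5 = 0 := by
    let f : (Fin 3 → ℝ) →ₗ[ℝ] (Fin 2 → ℝ) :=
      { toFun := fun r => ![r 0 * v 0 + r 1 * v 1 + r 2 * v 2,
          r 0 * v 3 + r 1 * v 4 + r 2 * v 5]
        map_add' := by
          intro x y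
          ext i
          fin_cases i <;> simp <;> ring
        map_smul' := by
          intro a x
          ext i
          fin_cases i <;> simp <;> ring }
    have hker : LinearMap.ker f ≠ ⊥ := by
      apply LinearMap.ker_ne_bot_of_finrank_lt
      simp
    obtain ⟨r, hr, hr0⟩ := Submodule.exists_mem_ne_zero_of_ne_bot hker
    refine ⟨r, hr0, ?_, ?_⟩
    · have := congrFun (LinearMap.mem_ker.mp hr) 0
      simpa [f] using this
    · have := congrFun (LinearMap.mem_ker.mp hr) 1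
      simpa [f] using this
  let φ : Module.Dual ℝ (Fin 6 → ℝ) :=
    { toFun := fun x => r 0 * x 0 + r 1 * x 1 + r 2 * x 2
      map_add' := by
        intro x y
        simp
        ring
      map_smul' := by
        intro a x
        simp
        ring }
  have hφ : S F {v, -v} ⊆ ((LinearMap.ker φ).toAffineSubspace : Set (Fin 6 → ℝ)) := by
    rintro x ⟨f, ⟨i, hi⟩, a, ha, rfl⟩
    change φ _ = 0
    have hv : φ (toR ((f : Matrix (Fin 6) (Fin 6) ℤ) *ᵥ v)) = 0 := by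
      rw [hi]
      change r 0 * (((mats i *ᵥ v) 0 : ℤ) : ℝ) + r 1 * (((mats i *ᵥ v) 1 : ℤ) : ℝ) +
        r 2 * (((mats i *ᵥ v) 2 : ℤ) : ℝ) = 0
      fin_cases i <;>
        simp [mats, kron, Matrix.mulVec, dotProduct, Fin.sum_univ_succ] <;>
        linarith
    rcases ha with rfl | ha
    · exact hv
    · rw [Set.mem_singleton_iff] at ha
      subst ha
      rw [Matrix.mulVec_neg, toR_neg, map_neg, hv, neg_zero]
  have h1 := interior_convexHull_nonempty_iff_affineSpan_eq_top.mp hfull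
  have h2 := affineSpan_le.mpr hφ
  have h3 : affineSpan ℝ (S F {v, -v}) = ⊤ := h1
  rw [h3, top_le_iff] at h2
  have h4 : ∀ x : Fin 6 → ℝ, φ x = 0 := by
    intro x
    have h5 : x ∈ (LinearMap.ker φ).toAffineSubspace := by
      rw [h2]
      exact AffineSubspace.mem_top ℝ _ _
    exact h5
  apply hr0
  ext i
  fin_cases i
  · have := h4 (Pi.single 0 1)
    simpa [φ] using this
  · have := h4 (Pi.single 1 1)
    simpa [φ] using this
  · have := h4 (Pi.single 2 1)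
    simpa [φ] using this

/-- **MP_123198_al, Q1, answered negatively.**  It is not true that condition (S) implies
condition (B) for all finite subgroups of `GL_d(ℤ)`. -/
theorem result : ¬ ∀ d : ℕ, 1 ≤ d → ∀ F : Subgroup (GL (Fin d) ℤ), Finite F →
    CondS F → CondB F := by
  intro h
  exact not_condB (h 6 (by norm_num) F finite_F condS)

end Pool.Agent.Results.MP_123198_al.FourPairs
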